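import Pool.Agent.helper83.AD.Defs

set_option autoImplicit false

/-!
# AD-3: barycentric subdivision of mod 2 chains
-/

namespace Pool.Agent.helper83.AD

open Finset

variable {W : Type*} [Fintype W] [DecidableEq W]

/-- Auxiliary recursion for the subdivision of a single simplex. -/
def sdAux : ℕ → Finset W → Finset (Finset W) → ZMod 2
  | 0, _ => fun Φ => if Φ = ∅ then 1 else 0
  | k + 1, σ => cone σ (fun Φ => ∑ v ∈ σ, sdAux k (σ.erase v) Φ)

/-- The barycentric subdivision of the simplex `σ`, as a chain on the vertex set `Finset W`. -/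
def sdOne (σ : Finset W) : Finset (Finset W) → ZMod 2 := sdAux σ.card σ

/-- The barycentric subdivision of a chain. -/
def sd (c : Finset W → ZMod 2) (Φ : Finset (Finset W)) : ZMod 2 := ∑ σ, c σ * sdOne σ Φ

/-- A symmetric function summed over ordered pairs of distinct elements is zero mod 2. -/
theorem Sd_sum_symm {V : Type*} [DecidableEq V] (f : V → V → ZMod 2)
    (hf : ∀ v w, f v w = f w v) (s : Finset V) :
    ∑ v ∈ s, ∑ w ∈ s.erase v, f v w = 0 := by
  classical
  induction s using Finset.induction_on with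
  | empty => simp
  | insert a t ha ih =>
    rw [Finset.sum_insert ha, Finset.erase_insert ha]
    have h1 : ∀ v ∈ t, ∑ w ∈ (insert a t).erase v, f v w = f v a + ∑ w ∈ t.erase v, f v w := by
      intro v hv
      have hva : v ≠ a := fun h => ha (h ▸ hv)
      rw [Finset.erase_insert_of_ne (Ne.symm hva), Finset.sum_insert]
      intro h
      exact ha (Finset.mem_of_mem_erase h)
    rw [Finset.sum_congr rfl h1, Finset.sum_add_distrib, ih, add_zero]
    have h2 : ∑ v ∈ t, f v a = ∑ w ∈ t, f a w := Finset.sum_congr rfl (fun v _ => hf v a)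
    rw [h2]
    exact CharTwo.add_self_eq_zero _

/-- Duality between boundary and restriction to facets. -/
theorem Sd_sum_bd_mul (c φ : Finset W → ZMod 2) :
    ∑ τ, bd c τ * φ τ = ∑ σ, c σ * ∑ v ∈ σ, φ (σ.erase v) := by
  classical
  have hL : ∑ τ, bd c τ * φ τ
      = ∑ v, ∑ τ ∈ univ.filter (fun τ : Finset W => v ∉ τ), c (insert v τ) * φ τ := by
    simp only [bd, Finset.sum_mul]
    rw [Finset.sum_comm' (t' := univ) (s' := fun v => univ.filter (fun τ : Finset W => v ∉ τ))]
    intro τ v
    simp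
  have hR : ∑ σ, c σ * ∑ v ∈ σ, φ (σ.erase v)
      = ∑ v, ∑ σ ∈ univ.filter (fun σ : Finset W => v ∈ σ), c σ * φ (σ.erase v) := by
    simp only [Finset.mul_sum]
    rw [Finset.sum_comm' (t' := univ) (s' := fun v => univ.filter (fun σ : Finset W => v ∈ σ))]
    intro τ v
    simp
  rw [hL, hR]
  refine Finset.sum_congr rfl (fun v _ => ?_)
  refine Finset.sum_bij' (fun τ _ => insert v τ) (fun σ _ => σ.erase v) ?_ ?_ ?_ ?_ ?_
  · intro τ _
    simp
  · intro σ _
    simp
  · intro τ hτ
    simp only [Finset.mem_filter, Finset.mem_univ, true_and] at hτ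
    exact Finset.erase_insert hτ
  · intro σ hσ
    simp only [Finset.mem_filter, Finset.mem_univ, true_and] at hσ
    exact Finset.insert_erase hσ
  · intro τ hτ
    simp only [Finset.mem_filter, Finset.mem_univ, true_and] at hτ
    rw [Finset.erase_insert hτ]

/-- Boundary of a cone. PROOF: if `b ∈ Ψ` then `x Ψ = 0`, and `bd (cone b x) Ψ` is the sum over
`v ∉ Ψ` of `x (insert v (Ψ.erase b))`, which is `bd x (Ψ.erase b)` without its term
`x (insert b (Ψ.erase b)) = x Ψ = 0`. If `b ∉ Ψ` only the term `v = b` of `bd (cone b x) Ψ`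
survives and equals `x Ψ`, while `cone b (bd x) Ψ = 0`. -/
theorem bd_cone (b : W) (x : Finset W → ZMod 2) (hx : ∀ σ, b ∈ σ → x σ = 0) (Ψ : Finset W) :
    bd (cone b x) Ψ = x Ψ + cone b (bd x) Ψ := by
  classical
  by_cases hb : b ∈ Ψ
  · rw [hx Ψ hb, zero_add]
    have h1 : cone b (bd x) Ψ = bd x (Ψ.erase b) := by simp [cone, hb]
    rw [h1]
    have h2 : (Ψ.erase b)ᶜ = insert b Ψᶜ := by
      ext v
      simp only [Finset.mem_compl, Finset.mem_erase, Finset.mem_insert, not_and]
      by_cases hv : v = b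
      · simp [hv]
      · simp [hv]
    have h3 : b ∉ Ψᶜ := by simp [hb]
    unfold bd
    rw [h2, Finset.sum_insert h3, hx (insert b (Ψ.erase b)) (Finset.mem_insert_self _ _), zero_add]
    refine Finset.sum_congr rfl (fun v hv => ?_)
    have hvΨ : v ∉ Ψ := by simpa using hv
    have hvb : v ≠ b := fun h => hvΨ (h ▸ hb)
    unfold cone
    rw [if_pos (Finset.mem_insert_of_mem hb), Finset.erase_insert_of_ne hvb]
  · have h1 : cone b (bd x) Ψ = 0 := by simp [cone, hb]
    rw [h1, add_zero]
    unfold bd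
    have h3 : b ∈ Ψᶜ := by simp [hb]
    rw [Finset.sum_eq_single_of_mem b h3]
    · unfold cone
      rw [if_pos (Finset.mem_insert_self _ _), Finset.erase_insert hb]
    · intro v _ hvb
      unfold cone
      rw [if_neg]
      simp [hb, Ne.symm hvb]

/-- The double boundary vanishes. PROOF: the ordered pairs `(v,w)` and `(w,v)` give the same
term; characteristic 2. -/
theorem bd_bd (c : Finset W → ZMod 2) (τ : Finset W) : bd (bd c) τ = 0 := by
  classical
  have h := Sd_sum_symm (fun v w => c (insert w (insert v τ)))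
    (fun v w => by rw [Finset.insert_comm]) τᶜ
  rw [← h]
  unfold bd
  refine Finset.sum_congr rfl (fun v _ => ?_)
  refine Finset.sum_congr ?_ (fun _ _ => rfl)
  rw [Finset.compl_insert]

/-- The recursion for `sdOne`. -/
theorem Sd_sdOne_succ (σ : Finset W) (hσ : σ.Nonempty) :
    sdOne σ = cone σ (fun Φ => ∑ v ∈ σ, sdOne (σ.erase v) Φ) := by
  classical
  obtain ⟨k, hk⟩ : ∃ k, σ.card = k + 1 := ⟨σ.card - 1, by
    have := hσ.card_pos
    omega⟩
  have h1 : sdOne σ = cone σ (fun Φ => ∑ v ∈ σ, sdAux k (σ.erase v) Φ) := by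
    unfold sdOne
    rw [hk]
    rfl
  rw [h1]
  congr 1
  funext Φ
  refine Finset.sum_congr rfl (fun v hv => ?_)
  unfold sdOne
  rw [Finset.card_erase_of_mem hv, hk]
  rfl

theorem Sd_sdOne_empty (Φ : Finset (Finset W)) :
    sdOne (∅ : Finset W) Φ = if Φ = ∅ then 1 else 0 := rfl

/-- Support of the subdivision of a simplex. PROOF: induction on `σ.card` with `sdAux`. -/
theorem sdOne_supp (σ : Finset W) (Φ : Finset (Finset W)) (h : sdOne σ Φ ≠ 0) :
    Φ.card = σ.card ∧ (∀ A ∈ Φ, A ⊆ σ ∧ A.Nonempty) ∧ (∀ A ∈ Φ, ∀ B ∈ Φ, A ⊆ B ∨ B ⊆ A) := by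
  classical
  induction hk : σ.card generalizing σ Φ with
  | zero =>
    have hσ : σ = ∅ := Finset.card_eq_zero.mp hk
    subst hσ
    rw [Sd_sdOne_empty] at h
    have hΦ : Φ = ∅ := by
      by_contra hne
      exact h (if_neg hne)
    subst hΦ
    simp
  | succ k ih =>
    have hσ : σ.Nonempty := by
      rw [← Finset.card_pos]
      omega
    rw [Sd_sdOne_succ σ hσ] at h
    unfold cone at h
    have hmem : σ ∈ Φ := by
      by_contra hne
      exact h (if_neg hne)
    rw [if_pos hmem] at h
    obtain ⟨v, hv, hne⟩ := Finset.exists_ne_zero_of_sum_ne_zero h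
    have hcard : (σ.erase v).card = k := by
      rw [Finset.card_erase_of_mem hv, hk]
      rfl
    obtain ⟨h1, h2, h3⟩ := ih (σ.erase v) (Φ.erase σ) hne hcard
    refine ⟨?_, ?_, ?_⟩
    · have := Finset.card_erase_of_mem hmem
      have hpos : 0 < Φ.card := Finset.card_pos.mpr ⟨σ, hmem⟩
      omega
    · intro A hA
      by_cases hAσ : A = σ
      · subst hAσ
        exact ⟨Finset.Subset.refl _, hσ⟩
      · obtain ⟨h4, h5⟩ := h2 A (Finset.mem_erase.mpr ⟨hAσ, hA⟩)
        exact ⟨h4.trans (Finset.erase_subset _ _), h5⟩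
    · intro A hA B hB
      by_cases hAσ : A = σ
      · by_cases hBσ : B = σ
        · left
          rw [hAσ, hBσ]
        · right
          rw [hAσ]
          exact (h2 B (Finset.mem_erase.mpr ⟨hBσ, hB⟩)).1.trans (Finset.erase_subset _ _)
      · by_cases hBσ : B = σ
        · left
          rw [hBσ]
          exact (h2 A (Finset.mem_erase.mpr ⟨hAσ, hA⟩)).1.trans (Finset.erase_subset _ _)
        · exact h3 A (Finset.mem_erase.mpr ⟨hAσ, hA⟩) B (Finset.mem_erase.mpr ⟨hBσ, hB⟩)

theorem Sd_bd_sum {V : Type*} [Fintype V] [DecidableEq V] {I : Type*} (s : Finset I)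
    (c : I → Finset V → ZMod 2) (Ψ : Finset V) :
    bd (fun Φ => ∑ v ∈ s, c v Φ) Ψ = ∑ v ∈ s, bd (c v) Ψ := by
  unfold bd
  rw [Finset.sum_comm]

/-- Boundary of the subdivision of a simplex. PROOF: induction on `σ.card`; for `σ ≠ ∅`,
`sdOne σ = cone σ x` with `x = ∑ v ∈ σ, sdOne (σ.erase v)` (vanishing on sets containing `σ`, by
`sdOne_supp`), so by `bd_cone` the boundary is `x + cone σ (bd x)`, and
`bd x = ∑ v ∈ σ, ∑ w ∈ σ.erase v, sdOne ((σ.erase v).erase w) = 0` by induction and symmetry. -/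
theorem bd_sdOne (σ : Finset W) (Ψ : Finset (Finset W)) :
    bd (sdOne σ) Ψ = ∑ v ∈ σ, sdOne (σ.erase v) Ψ := by
  classical
  induction hk : σ.card generalizing σ Ψ with
  | zero =>
    have hσ : σ = ∅ := Finset.card_eq_zero.mp hk
    subst hσ
    rw [Finset.sum_empty]
    unfold bd
    refine Finset.sum_eq_zero (fun A _ => ?_)
    rw [Sd_sdOne_empty, if_neg]
    exact Finset.insert_ne_empty _ _
  | succ k ih =>
    have hσ : σ.Nonempty := by
      rw [← Finset.card_pos]
      omega
    rw [Sd_sdOne_succ σ hσ, bd_cone]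
    · have h0 : bd (fun Φ => ∑ v ∈ σ, sdOne (σ.erase v) Φ) = fun _ => 0 := by
        funext Φ
        rw [Sd_bd_sum]
        have h1 : ∀ v ∈ σ, bd (sdOne (σ.erase v)) Φ
            = ∑ w ∈ σ.erase v, sdOne ((σ.erase v).erase w) Φ := by
          intro v hv
          refine ih (σ.erase v) Φ ?_
          rw [Finset.card_erase_of_mem hv, hk]
          rfl
        rw [Finset.sum_congr rfl h1]
        exact Sd_sum_symm (fun v w => sdOne ((σ.erase v).erase w) Φ)
          (fun v w => by rw [Finset.erase_right_comm]) σ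
      rw [h0]
      have h2 : cone σ (fun _ : Finset (Finset W) => (0 : ZMod 2)) Ψ = 0 := by
        unfold cone
        simp
      rw [h2, add_zero]
    · intro Φ hΦ
      refine Finset.sum_eq_zero (fun v hv => ?_)
      by_contra hne
      have h3 := ((sdOne_supp (σ.erase v) Φ hne).2.1 σ hΦ).1
      exact (Finset.notMem_erase v σ) (h3 hv)

/-- Subdivision is a chain map. PROOF: from `bd_sdOne`, reindexing `(τ, v ∉ τ) ↔ (σ, v ∈ σ)`. -/
theorem bd_sd (c : Finset W → ZMod 2) (Ψ : Finset (Finset W)) :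
    bd (sd c) Ψ = sd (bd c) Ψ := by
  classical
  have h1 : bd (sd c) Ψ = ∑ σ, c σ * bd (sdOne σ) Ψ := by
    unfold bd sd
    rw [Finset.sum_comm]
    refine Finset.sum_congr rfl (fun σ _ => ?_)
    rw [Finset.mul_sum]
  rw [h1]
  have h2 : ∀ σ : Finset W, c σ * bd (sdOne σ) Ψ = c σ * ∑ v ∈ σ, sdOne (σ.erase v) Ψ :=
    fun σ => by rw [bd_sdOne]
  rw [Finset.sum_congr rfl (fun σ _ => h2 σ)]
  rw [← Sd_sum_bd_mul c (fun τ => sdOne τ Ψ)]
  rfl

theorem Sd_image_image (ι : W → W) (hι : Function.Involutive ι) (A : Finset W) :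
    (A.image ι).image ι = A := by
  rw [Finset.image_image, hι.comp_self, Finset.image_id]

theorem Sd_image_invol (ι : W → W) (hι : Function.Involutive ι) :
    Function.Involutive (fun A : Finset W => A.image ι) :=
  fun A => Sd_image_image ι hι A

/-- Equivariance of the subdivision of a simplex. PROOF: induction on `σ.card`. -/
theorem sdOne_image (ι : W → W) (hι : Function.Involutive ι) (σ : Finset W)
    (Φ : Finset (Finset W)) :
    sdOne (σ.image ι) (Φ.image (fun A => A.image ι)) = sdOne σ Φ := by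
  classical
  have hI := Sd_image_invol ι hι
  induction hk : σ.card generalizing σ Φ with
  | zero =>
    have hσ : σ = ∅ := Finset.card_eq_zero.mp hk
    subst hσ
    rw [Finset.image_empty, Sd_sdOne_empty, Sd_sdOne_empty]
    simp [Finset.image_eq_empty]
  | succ k ih =>
    have hσ : σ.Nonempty := by
      rw [← Finset.card_pos]
      omega
    rw [Sd_sdOne_succ σ hσ, Sd_sdOne_succ (σ.image ι) (hσ.image ι)]
    unfold cone
    have hmem : σ.image ι ∈ Φ.image (fun A => A.image ι) ↔ σ ∈ Φ := by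
      constructor
      · intro h
        obtain ⟨A, hA, hAσ⟩ := Finset.mem_image.mp h
        have : A = σ := hI.injective hAσ
        exact this ▸ hA
      · intro h
        exact Finset.mem_image_of_mem _ h
    by_cases hσΦ : σ ∈ Φ
    · rw [if_pos hσΦ, if_pos (hmem.mpr hσΦ)]
      show ∑ v ∈ image ι σ, sdOne ((image ι σ).erase v)
          ((image (fun A => image ι A) Φ).erase (image ι σ))
        = ∑ v ∈ σ, sdOne (σ.erase v) (Φ.erase σ)
      rw [Finset.sum_image (fun x _ y _ h => hι.injective h)]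
      refine Finset.sum_congr rfl (fun v hv => ?_)
      have h1 : (σ.image ι).erase (ι v) = (σ.erase v).image ι :=
        (Finset.image_erase hι.injective σ v).symm
      have h2 : (Φ.image (fun A => A.image ι)).erase (σ.image ι)
          = (Φ.erase σ).image (fun A => A.image ι) :=
        (Finset.image_erase hI.injective Φ σ).symm
      rw [h1, h2]
      refine ih (σ.erase v) (Φ.erase σ) ?_
      rw [Finset.card_erase_of_mem hv, hk]
      rfl
    · rw [if_neg hσΦ, if_neg (fun h => hσΦ (hmem.mp h))]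

theorem Sd_sd_image (ι : W → W) (hι : Function.Involutive ι) (c : Finset W → ZMod 2)
    (Φ : Finset (Finset W)) :
    sd (fun σ => c (σ.image ι)) Φ = sd c (Φ.image (fun A => A.image ι)) := by
  classical
  have hI := Sd_image_invol ι hι
  unfold sd
  rw [← Equiv.sum_comp (Function.Involutive.toPerm (fun A : Finset W => A.image ι) hI)
    (fun σ => c σ * sdOne σ (Φ.image (fun A => A.image ι)))]
  refine Finset.sum_congr rfl (fun σ _ => ?_)
  show c (σ.image ι) * sdOne σ Φ
    = c (σ.image ι) * sdOne (σ.image ι) (Φ.image (fun A => A.image ι))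
  rw [sdOne_image ι hι]

/-- The subdivision of a Borsuk-Ulam sequence is one.
PROOF: `card_eq` from `sdOne_supp`; `bd_succ` from `bd_sd` and
`sd (fun σ => c i (σ.image ι)) Φ = sd (c i) (Φ.image (·.image ι))` (`sdOne_image`, reindexing);
`aug`: `bd (sd (c 0)) ∅ = sd (bd (c 0)) ∅ = bd (c 0) ∅ * sdOne ∅ ∅ = 1` because `bd (c 0) τ = 0`
unless `τ = ∅` (support of `c 0`). -/
theorem sd_isBU (ι : W → W) (hι : Function.Involutive ι) (n : ℕ)
    (c : ℕ → Finset W → ZMod 2) (h : IsBU ι n c) :
    IsBU (fun A : Finset W => A.image ι) n (fun i => sd (c i)) := by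
  classical
  refine ⟨?_, ?_, ?_⟩
  · intro i Φ hne
    obtain ⟨σ, _, hσ⟩ := Finset.exists_ne_zero_of_sum_ne_zero hne
    have h1 : c i σ ≠ 0 := left_ne_zero_of_mul hσ
    have h2 : sdOne σ Φ ≠ 0 := right_ne_zero_of_mul hσ
    rw [(sdOne_supp σ Φ h2).1, h.card_eq i σ h1]
  · intro i hi Φ
    show bd (sd (c (i + 1))) Φ = sd (c i) Φ + sd (c i) (Φ.image (fun A => A.image ι))
    rw [bd_sd, ← Sd_sd_image ι hι]
    unfold sd
    rw [← Finset.sum_add_distrib]
    refine Finset.sum_congr rfl (fun σ _ => ?_)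
    rw [h.bd_succ i hi σ, add_mul]
  · show bd (sd (c 0)) ∅ = 1
    rw [bd_sd]
    unfold sd
    rw [Finset.sum_eq_single_of_mem ∅ (Finset.mem_univ _)]
    · rw [h.aug, Sd_sdOne_empty, if_pos rfl, mul_one]
    · intro σ _ hσ
      have h1 : bd (c 0) σ = 0 := by
        unfold bd
        refine Finset.sum_eq_zero (fun v hv => ?_)
        by_contra hne
        have h2 := h.card_eq 0 _ hne
        have hvσ : v ∉ σ := by simpa using hv
        rw [Finset.card_insert_of_notMem hvσ] at h2
        have h3 : σ.card = 0 := by omega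
        exact hσ (Finset.card_eq_zero.mp h3)
      rw [h1, zero_mul]

end Pool.Agent.helper83.AD
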