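import Pool.Agent.helper83.AD.Sd

set_option autoImplicit false

/-!
# AD-6: suspension of Borsuk-Ulam data
-/

namespace Pool.Agent.helper83.AD

open Finset

variable {E : Type*} [NormedAddCommGroup E] [NormedSpace ℝ E]
variable {E' : Type*} [NormedAddCommGroup E'] [NormedSpace ℝ E']

section Chains

variable {W : Type*} [Fintype W] [DecidableEq W]

/-- a bound for finitely many distances -/
theorem Susp_bound {V : Type*} [Finite V] (p : V → E) : ∃ δ : ℝ, ∀ v w, ‖p v - p w‖ ≤ δ := by
  obtain ⟨δ, hδ⟩ := (Set.finite_range fun x : V × V => ‖p x.1 - p x.2‖).bddAbove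
  exact ⟨δ, fun v w => hδ ⟨(v, w), rfl⟩⟩

/-- the chain on `W ⊕ Bool` given by a chain on `W` -/
def Susp_up (x : Finset W → ZMod 2) (σ : Finset (W ⊕ Bool)) : ZMod 2 :=
  if σ.toRight = ∅ then x σ.toLeft else 0

omit [Fintype W] [DecidableEq W] in
theorem Susp_up_ne {x : Finset W → ZMod 2} {σ : Finset (W ⊕ Bool)} (h : Susp_up x σ ≠ 0) :
    σ.toRight = ∅ ∧ x σ.toLeft ≠ 0 := by
  unfold Susp_up at h
  by_cases h1 : σ.toRight = ∅
  · rw [if_pos h1] at h
    exact ⟨h1, h⟩
  · rw [if_neg h1] at h
    exact absurd rfl h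

theorem Susp_bd_up (x : Finset W → ZMod 2) (τ : Finset (W ⊕ Bool)) :
    bd (Susp_up x) τ = Susp_up (bd x) τ := by
  unfold bd
  have hsplit : ∑ v ∈ τᶜ, Susp_up x (insert v τ)
      = ∑ w ∈ (τ.toLeft)ᶜ, Susp_up x (insert (Sum.inl w) τ) := by
    refine Eq.trans ?_ (Finset.sum_map ((τ.toLeft)ᶜ) Function.Embedding.inl
      (fun v => Susp_up x (insert v τ)))
    symm
    apply Finset.sum_subset
    · intro v hv
      rw [Finset.mem_map] at hv
      obtain ⟨w, hw, rfl⟩ := hv
      simpa using hw
    · intro v hv hv'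
      cases v with
      | inl w =>
        exfalso
        apply hv'
        rw [Finset.mem_map]
        exact ⟨w, by simpa using hv, rfl⟩
      | inr b =>
        unfold Susp_up
        rw [if_neg]
        simp
  rw [hsplit]
  unfold Susp_up
  simp only [Finset.toRight_insert_inl, Finset.toLeft_insert_inl]
  split_ifs with h
  · rfl
  · simp

/-- the involution on the suspension -/
def Susp_inv (ι : W → W) : W ⊕ Bool → W ⊕ Bool := Sum.map ι Bool.not

omit [Fintype W] [DecidableEq W] in
theorem Susp_inv_inv {ι : W → W} (hι : Function.Involutive ι) :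
    Function.Involutive (Susp_inv ι) := by
  intro v
  cases v with
  | inl w =>
    show Sum.inl (ι (ι w)) = Sum.inl w
    rw [hι w]
  | inr b =>
    show Sum.inr (!!b) = Sum.inr b
    rw [Bool.not_not]

omit [Fintype W] in
theorem Susp_toLeft (ι : W → W) (τ : Finset (W ⊕ Bool)) :
    (τ.image (Susp_inv ι)).toLeft = τ.toLeft.image ι := by
  ext w
  simp only [Finset.mem_toLeft, Finset.mem_image]
  constructor
  · rintro ⟨v, hv, hvw⟩
    cases v with
    | inl u => exact ⟨u, hv, Sum.inl_injective hvw⟩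
    | inr b => exact absurd hvw (by simp [Susp_inv])
  · rintro ⟨u, hu, rfl⟩
    exact ⟨Sum.inl u, hu, rfl⟩

omit [Fintype W] in
theorem Susp_toRight (ι : W → W) (τ : Finset (W ⊕ Bool)) :
    (τ.image (Susp_inv ι)).toRight = ∅ ↔ τ.toRight = ∅ := by
  rw [Finset.eq_empty_iff_forall_notMem, Finset.eq_empty_iff_forall_notMem]
  constructor
  · intro h b hb
    apply h (!b)
    rw [Finset.mem_toRight] at hb ⊢
    exact Finset.mem_image.2 ⟨Sum.inr b, hb, rfl⟩
  · intro h b hb
    rw [Finset.mem_toRight, Finset.mem_image] at hb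
    obtain ⟨v, hv, hvb⟩ := hb
    cases v with
    | inl u => exact absurd hvb (by simp [Susp_inv])
    | inr b' => exact h b' (Finset.mem_toRight.2 hv)

omit [Fintype W] in
theorem Susp_up_image (ι : W → W) (x : Finset W → ZMod 2) (τ : Finset (W ⊕ Bool)) :
    Susp_up x (τ.image (Susp_inv ι)) = Susp_up (fun σ => x (σ.image ι)) τ := by
  unfold Susp_up
  rw [Susp_toLeft]
  by_cases h : τ.toRight = ∅
  · rw [if_pos h, if_pos ((Susp_toRight ι τ).2 h)]
  · rw [if_neg h, if_neg (fun h' => h ((Susp_toRight ι τ).1 h'))]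

omit [Fintype W] [DecidableEq W] in
theorem Susp_up_add (x y : Finset W → ZMod 2) (τ : Finset (W ⊕ Bool)) :
    Susp_up (fun σ => x σ + y σ) τ = Susp_up x τ + Susp_up y τ := by
  unfold Susp_up
  split_ifs <;> simp

omit [Fintype W] [DecidableEq W] in
theorem Susp_card {σ : Finset (W ⊕ Bool)} (h : σ.toRight = ∅) : σ.card = σ.toLeft.card := by
  rw [← Finset.card_toLeft_add_card_toRight (u := σ), h, Finset.card_empty, add_zero]

theorem Susp_bd_image {ι : W → W} (hι : Function.Involutive ι) (x : Finset W → ZMod 2)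
    (τ : Finset W) : bd (fun σ => x (σ.image ι)) τ = bd x (τ.image ι) := by
  unfold bd
  refine Finset.sum_bij' (fun v _ => ι v) (fun v _ => ι v) ?_ ?_ ?_ ?_ ?_
  · intro v hv
    rw [Finset.mem_compl] at hv ⊢
    intro h
    obtain ⟨u, hu, huv⟩ := Finset.mem_image.1 h
    exact hv (hι.injective huv ▸ hu)
  · intro v hv
    rw [Finset.mem_compl] at hv ⊢
    intro h
    exact hv (Finset.mem_image.2 ⟨ι v, h, hι v⟩)
  · intro v _
    exact hι v
  · intro v _
    exact hι v
  · intro v _
    show x ((insert v τ).image ι) = x (insert (ι v) (τ.image ι))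
    rw [Finset.image_insert]

theorem Susp_bd_add (x y : Finset W → ZMod 2) (τ : Finset W) :
    bd (fun σ => x σ + y σ) τ = bd x τ + bd y τ := by
  unfold bd
  rw [Finset.sum_add_distrib]

/-- the symmetrised last chain is a cycle -/
theorem Susp_cycle {ι : W → W} (hι : Function.Involutive ι) {n : ℕ}
    {c : ℕ → Finset W → ZMod 2} (h : IsBU ι n c) (τ : Finset W) :
    bd (fun σ => c n σ + c n (σ.image ι)) τ = 0 := by
  have two : ∀ a : ZMod 2, a + a = 0 := by decide
  have hii : (τ.image ι).image ι = τ := by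
    rw [Finset.image_image, hι.comp_self, Finset.image_id]
  rw [Susp_bd_add, Susp_bd_image hι]
  rcases Nat.eq_zero_or_pos n with hn | hn
  · subst hn
    have h0 : ∀ τ : Finset W, τ ≠ ∅ → bd (c 0) τ = 0 := by
      intro τ hτ
      unfold bd
      refine Finset.sum_eq_zero fun v hv => ?_
      by_contra hne
      have h1 := h.card_eq 0 _ hne
      rw [Finset.card_insert_of_notMem (Finset.mem_compl.1 hv)] at h1
      exact hτ (Finset.card_eq_zero.1 (by omega))
    by_cases hτ : τ = ∅
    · subst hτ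
      rw [Finset.image_empty, two]
    · rw [h0 τ hτ, h0 (τ.image ι) (by simpa using hτ), add_zero]
  · obtain ⟨k, rfl⟩ : ∃ k, n = k + 1 := ⟨n - 1, by omega⟩
    rw [h.bd_succ k (Nat.lt_succ_self k), h.bd_succ k (Nat.lt_succ_self k), hii,
      add_comm (c k (τ.image ι)) (c k τ), two]

/-- the chains of the suspension -/
def Susp_c (ι : W → W) (n : ℕ) (c : ℕ → Finset W → ZMod 2) (i : ℕ)
    (σ : Finset (W ⊕ Bool)) : ZMod 2 :=
  if i ≤ n then Susp_up (c i) σ
  else if i = n + 1 then cone (Sum.inr true) (Susp_up (fun σ => c n σ + c n (σ.image ι))) σ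
  else 0

/-- what a simplex of the last chain looks like -/
theorem Susp_last {ι : W → W} {n : ℕ} {c : ℕ → Finset W → ZMod 2}
    {σ : Finset (W ⊕ Bool)}
    (hσ : cone (Sum.inr true) (Susp_up (fun σ => c n σ + c n (σ.image ι))) σ ≠ 0) :
    ∃ σ1 : Finset W, σ = insert (Sum.inr true) (σ1.map Function.Embedding.inl) ∧
      (c n σ1 ≠ 0 ∨ c n (σ1.image ι) ≠ 0) := by
  unfold cone at hσ
  by_cases hb : (Sum.inr true : W ⊕ Bool) ∈ σ
  · rw [if_pos hb] at hσ
    obtain ⟨h1, h2⟩ := Susp_up_ne hσ
    refine ⟨(σ.erase (Sum.inr true)).toLeft, ?_, ?_⟩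
    · have h3 : ((σ.erase (Sum.inr true)).toLeft).map Function.Embedding.inl
          = σ.erase (Sum.inr true) := by
        ext v
        cases v with
        | inl w => simp
        | inr b =>
          have h4 : b ∉ (σ.erase (Sum.inr true)).toRight := by
            rw [h1]
            exact Finset.notMem_empty b
          rw [Finset.mem_toRight] at h4
          simp only [Finset.mem_map, h4, iff_false, not_exists]
          rintro w ⟨-, hw⟩
          exact absurd hw (by simp)
      rw [h3, Finset.insert_erase hb]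
    · by_contra hcon
      push Not at hcon
      apply h2
      show c n _ + c n _ = 0
      rw [hcon.1, hcon.2, add_zero]
  · rw [if_neg hb] at hσ
    exact absurd rfl hσ

theorem Susp_isBU {ι : W → W} (hι : Function.Involutive ι) {n : ℕ}
    {c : ℕ → Finset W → ZMod 2} (h : IsBU ι n c) :
    IsBU (Susp_inv ι) (n + 1) (Susp_c ι n c) := by
  refine ⟨?_, ?_, ?_⟩
  · intro i σ hσ
    unfold Susp_c at hσ
    by_cases h1 : i ≤ n
    · rw [if_pos h1] at hσ
      obtain ⟨h2, h3⟩ := Susp_up_ne hσ
      rw [Susp_card h2, h.card_eq i _ h3]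
    · rw [if_neg h1] at hσ
      by_cases h2 : i = n + 1
      · rw [if_pos h2] at hσ
        obtain ⟨σ1, h3, h4⟩ := Susp_last hσ
        have h5 : σ1.card = n + 1 := by
          rcases h4 with h4 | h4
          · exact h.card_eq n _ h4
          · have := h.card_eq n _ h4
            rwa [Finset.card_image_of_injective _ hι.injective] at this
        rw [h3, Finset.card_insert_of_notMem (by simp), Finset.card_map, h5, h2]
      · rw [if_neg h2] at hσ
        exact absurd rfl hσ
  · intro i hi τ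
    by_cases h1 : i < n
    · have e1 : Susp_c ι n c (i + 1) = Susp_up (c (i + 1)) := by
        funext σ
        unfold Susp_c
        rw [if_pos (by omega)]
      have e2 : Susp_c ι n c i = Susp_up (c i) := by
        funext σ
        unfold Susp_c
        rw [if_pos (by omega)]
      rw [e1, e2, Susp_bd_up, Susp_up_image, ← Susp_up_add]
      congr 1
      funext σ
      exact h.bd_succ i h1 σ
    · have h2 : i = n := by omega
      subst h2
      have e1 : Susp_c ι i c (i + 1)
          = cone (Sum.inr true) (Susp_up (fun σ => c i σ + c i (σ.image ι))) := by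
        funext σ
        unfold Susp_c
        rw [if_neg (by omega), if_pos rfl]
      have e2 : Susp_c ι i c i = Susp_up (c i) := by
        funext σ
        unfold Susp_c
        rw [if_pos (le_refl _)]
      rw [e1, e2, bd_cone, Susp_up_image, ← Susp_up_add]
      · have e3 : bd (Susp_up (fun σ => c i σ + c i (σ.image ι))) = fun _ => 0 := by
          funext ρ
          rw [Susp_bd_up]
          unfold Susp_up
          rw [Susp_cycle hι h]
          simp
        rw [e3]
        unfold cone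
        simp
      · intro σ hσ
        unfold Susp_up
        rw [if_neg]
        intro h3
        have : true ∈ σ.toRight := Finset.mem_toRight.2 hσ
        rw [h3] at this
        exact absurd this (Finset.notMem_empty _)
  · have e2 : Susp_c ι n c 0 = Susp_up (c 0) := by
      funext σ
      unfold Susp_c
      rw [if_pos (Nat.zero_le _)]
    have e3 : (∅ : Finset (W ⊕ Bool)).toRight = ∅ := by
      ext b
      simp
    have e4 : (∅ : Finset (W ⊕ Bool)).toLeft = ∅ := by
      ext b
      simp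
    rw [e2, Susp_bd_up]
    unfold Susp_up
    rw [if_pos e3, e4]
    exact h.aug

end Chains

/-- Enlarge the carrier. -/
theorem BUData.mono {A : E →ₗ[ℝ] E} {n : ℕ} {S S' : Set E} {δ : ℝ} (h : BUData A n S δ)
    (hS : S ⊆ S') : BUData A n S' δ := by
  obtain ⟨W, i1, i2, ι, c, p, h1, h2, h3, h4, h5⟩ := h
  exact ⟨W, i1, i2, ι, c, p, h1, h2, h3, fun i hi σ hσ => (h4 i hi σ hσ).trans hS, h5⟩

/-- Push Borsuk-Ulam data forward by a linear map.
PROOF: same `W, ι, c`, placement `φ ∘ p`; hulls: `LinearMap.image_convexHull`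
(`Set.image_comp`/`Set.image_image`); `δ'` = any bound of the finitely many norms
`‖φ (p v) - φ (p w)‖` (`Finite.bddAbove_range` or `Finset.exists_le`, `Finset.sup'`). -/
theorem BUData.map {A : E →ₗ[ℝ] E} {A' : E' →ₗ[ℝ] E'} {n : ℕ} {S : Set E} {δ : ℝ}
    (h : BUData A n S δ) (φ : E →ₗ[ℝ] E') (hφ : ∀ x, φ (A x) = A' (φ x)) :
    ∃ δ', BUData A' n (φ '' S) δ' := by
  obtain ⟨W, i1, i2, ι, c, p, h1, h2, h3, h4, h5⟩ := h
  obtain ⟨δ', hδ'⟩ := Susp_bound (fun w => φ (p w))
  refine ⟨δ', W, i1, i2, ι, c, fun w => φ (p w), h1, h2, ?_, ?_, fun i _ σ _ v _ w _ => hδ' v w⟩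
  · intro w
    show φ (p (ι w)) = A' (φ (p w))
    rw [h3, hφ]
  · intro i hi σ hσ
    have e : (fun w => φ (p w)) '' (σ : Set W) = φ '' (p '' (σ : Set W)) := by
      rw [Set.image_image]
    rw [e, ← LinearMap.image_convexHull]
    exact Set.image_mono (h4 i hi σ hσ)

/-- hull of a simplex of the base of the suspension -/
theorem Susp_hull_base {W : Type*} [DecidableEq W] (p : W → E) (σ : Finset W) :
    (Sum.elim (fun w => (p w, (0 : ℝ))) (fun b : Bool => ((0 : E), if b then (1 : ℝ) else -1)))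
        '' ((σ.map Function.Embedding.inl : Finset (W ⊕ Bool)) : Set (W ⊕ Bool))
      = LinearMap.inl ℝ E ℝ '' (p '' (σ : Set W)) := by
  ext q
  simp only [Finset.coe_map, Set.mem_image, Finset.mem_coe, Function.Embedding.inl_apply]
  constructor
  · rintro ⟨_, ⟨w, hw, rfl⟩, rfl⟩
    exact ⟨p w, ⟨w, hw, rfl⟩, rfl⟩
  · rintro ⟨_, ⟨w, hw, rfl⟩, rfl⟩
    exact ⟨Sum.inl w, ⟨w, hw, rfl⟩, rfl⟩

/-- One suspension.
PROOF. New vertex set `W ⊕ Bool`, involution `ι` on `W` and `b ↦ !b` on `Bool`, placement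
`w ↦ (p w, 0)`, `true ↦ (0, 1)`, `false ↦ (0, -1)`. For a chain `x` on `W` let `x↑` be the chain
`σ ↦ if σ = (the image under Sum.inl of the finset σ₁ of its W-elements) then x σ₁ else 0`
(for example `x↑ σ = ∑ τ, x τ * (if τ.map Function.Embedding.inl = σ then 1 else 0)`; one has
`bd (x↑) = (bd x)↑`). New chains: `c' i = (c i)↑` for `i ≤ n`,
`c' (n+1) = cone (Sum.inr true) ((c n + ι c n)↑)` and `0` (or anything of the right
cardinality, e.g. `0`) beyond. `bd_cone` (from AD-3) gives
`bd (c' (n+1)) = (c n + ι c n)↑ + cone _ ((bd (c n + ι c n))↑)`, and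
`bd (c n + ι c n) = 0`: for `n > 0` it is `(1+ι)(1+ι) c (n-1) = 0`, for `n = 0` it is supported on
`∅` with value `1 + 1 = 0`. Hulls: a point of the hull of `{(p v, 0) : v ∈ σ}` is `(x, 0)` with
`x` in the hull of `p '' σ`, so in `S` (take `a = 1`); for a simplex `σ` of `c n` or of `ι c n`
the hull of `p '' σ` lies in `S` (in the second case it is `A` of the hull of the simplex
`σ.image ι`, and `A` maps `S` to itself), and a point of the hull of this and `(0,1)` is
`((1 - r) x, r)`, `0 ≤ r ≤ 1` (`convexHull_insert`, `segment`), take `a = 1 - r`.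
`δ'` exists by finiteness of `W ⊕ Bool`. -/
theorem BUData.susp {A : E →ₗ[ℝ] E} {n : ℕ} {S : Set E} {δ : ℝ} (h : BUData A n S δ)
    (hA : ∀ x ∈ S, A x ∈ S) :
    ∃ δ', BUData (A.prodMap (-(LinearMap.id : ℝ →ₗ[ℝ] ℝ))) (n + 1)
      {q : E × ℝ | ∃ x ∈ S, ∃ a : ℝ, 0 ≤ a ∧ q.1 = a • x ∧ a + |q.2| = 1} δ' := by
  classical
  obtain ⟨W, i1, i2, ι, c, p, h1, h2, h3, h4, h5⟩ := h
  obtain ⟨p', hp'⟩ : ∃ p' : W ⊕ Bool → E × ℝ, p' = Sum.elim (fun w => (p w, (0 : ℝ)))
    (fun b : Bool => ((0 : E), if b then (1 : ℝ) else -1)) := ⟨_, rfl⟩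
  obtain ⟨δ', hδ'⟩ := Susp_bound p'
  refine ⟨δ', W ⊕ Bool, inferInstance, inferInstance, Susp_inv ι, Susp_c ι n c, p',
    Susp_inv_inv h1, ?_, ?_, ?_, fun i _ σ _ v _ w _ => hδ' v w⟩
  · convert Susp_isBU h1 h2
  · intro v
    rw [hp']
    cases v with
    | inl w =>
      show (p (ι w), (0 : ℝ)) = (A (p w), -(0 : ℝ))
      rw [h3, neg_zero]
    | inr b =>
      show ((0 : E), if (!b) = true then (1 : ℝ) else -1) = (A 0, -(if b = true then (1 : ℝ) else -1))
      cases b <;> simp
  · intro i hi σ hσ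
    unfold Susp_c at hσ
    by_cases hin : i ≤ n
    · rw [if_pos hin] at hσ
      obtain ⟨hr, hl⟩ := Susp_up_ne hσ
      have e : σ = (σ.toLeft).map Function.Embedding.inl := by
        ext v
        cases v with
        | inl w => simp
        | inr b =>
          have h6 : b ∉ σ.toRight := by
            rw [hr]
            exact Finset.notMem_empty b
          rw [Finset.mem_toRight] at h6
          simp only [Finset.mem_map, h6, false_iff, not_exists]
          rintro w ⟨-, hw⟩
          exact absurd hw (by simp)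
      rw [e, hp', Susp_hull_base, ← LinearMap.image_convexHull]
      rintro _ ⟨x, hx, rfl⟩
      refine ⟨x, h4 i hin _ hl hx, 1, zero_le_one, ?_, ?_⟩
      · simp
      · simp
    · rw [if_neg hin, if_pos (by omega)] at hσ
      obtain ⟨σ1, e, hσ1⟩ := Susp_last hσ
      have hσ1S : convexHull ℝ (p '' (σ1 : Set W)) ⊆ S := by
        rcases hσ1 with h6 | h6
        · exact h4 n le_rfl _ h6
        · have h7 := h4 n le_rfl _ h6
          have h8 : p '' (σ1 : Set W) = A '' (p '' ((σ1.image ι : Finset W) : Set W)) := by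
            rw [Finset.coe_image, Set.image_image, Set.image_image]
            refine Set.image_congr fun w _ => ?_
            rw [← h3, h1]
          rw [h8, ← LinearMap.image_convexHull]
          rintro _ ⟨x, hx, rfl⟩
          exact hA x (h7 hx)
      have hne : (LinearMap.inl ℝ E ℝ '' (p '' (σ1 : Set W))).Nonempty := by
        have h6 : σ1.Nonempty := by
          rw [← Finset.card_pos]
          rcases hσ1 with h6 | h6
          · rw [h2.card_eq n _ h6]
            omega
          · have := h2.card_eq n _ h6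
            rw [Finset.card_image_of_injective _ h1.injective] at this
            omega
        obtain ⟨w, hw⟩ := h6
        exact ⟨_, _, ⟨w, hw, rfl⟩, rfl⟩
      have e2 : p' '' (σ : Set (W ⊕ Bool))
          = insert ((0 : E), (1 : ℝ)) (LinearMap.inl ℝ E ℝ '' (p '' (σ1 : Set W))) := by
        rw [e, Finset.coe_insert, Set.image_insert_eq, hp', Susp_hull_base]
        simp
      rw [e2, convexHull_insert hne, ← LinearMap.image_convexHull]
      intro q hq
      rw [mem_convexJoin] at hq
      obtain ⟨y, hy, z, ⟨x, hx, rfl⟩, hq⟩ := hq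
      rw [Set.mem_singleton_iff] at hy
      subst hy
      obtain ⟨a, b, ha, hb, hab, rfl⟩ := hq
      refine ⟨x, hσ1S hx, b, hb, ?_, ?_⟩
      · simp
      · simp only [LinearMap.inl_apply, Prod.smul_mk, Prod.mk_add_mk, smul_eq_mul, mul_one,
          mul_zero, add_zero]
        rw [abs_of_nonneg ha]
        linarith

/-- `N` suspensions.
PROOF: induction on `N`. `N = 0`: push forward by `x ↦ (x, 0)` (`BUData.map`, `BUData.mono`,
`a = 1`). Step: apply `BUData.susp` to the data in `E × (Fin N → ℝ)` (its carrier is invariant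
under `A × (-1)`, as `S` is under `A`), push forward by the linear map
`((x, u), r) ↦ (x, Fin.snoc u r)` (or `Fin.cons r u`) and enlarge the carrier:
`(a • (a' • x), a u, r)` with `a' + ∑ |u i| = 1` and `a + |r| = 1` has
`a a' + ∑ |a u i| + |r| = 1` (`Fin.sum_univ_castSucc`). -/
theorem BUData.suspN {A : E →ₗ[ℝ] E} {n : ℕ} {S : Set E} {δ : ℝ} (h : BUData A n S δ)
    (hA : ∀ x ∈ S, A x ∈ S) (N : ℕ) :
    ∃ δ', BUData (A.prodMap (-(LinearMap.id : (Fin N → ℝ) →ₗ[ℝ] (Fin N → ℝ)))) (n + N)
      {q : E × (Fin N → ℝ) | ∃ x ∈ S, ∃ a : ℝ, 0 ≤ a ∧ q.1 = a • x ∧ a + ∑ i, |q.2 i| = 1} δ' := by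
  induction N with
  | zero =>
    obtain ⟨δ', hδ'⟩ := h.map (A' := A.prodMap (-(LinearMap.id : (Fin 0 → ℝ) →ₗ[ℝ] (Fin 0 → ℝ))))
      (LinearMap.inl ℝ E (Fin 0 → ℝ)) (fun x => by simp)
    refine ⟨δ', hδ'.mono ?_⟩
    rintro _ ⟨x, hx, rfl⟩
    exact ⟨x, hx, 1, zero_le_one, by simp, by simp⟩
  | succ N ih =>
    obtain ⟨δ1, h1⟩ := ih
    obtain ⟨δ2, h2⟩ := h1.susp (by
      rintro q ⟨x, hx, a, ha, h3, h4⟩
      refine ⟨A x, hA x hx, a, ha, ?_, ?_⟩
      · show A q.1 = a • A x
        rw [h3, map_smul]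
      · simpa using h4)
    let φ : (E × (Fin N → ℝ)) × ℝ →ₗ[ℝ] E × (Fin (N + 1) → ℝ) :=
      { toFun := fun q => (q.1.1, Fin.cons q.2 q.1.2)
        map_add' := by
          intro q q'
          refine Prod.ext rfl ?_
          funext i
          refine Fin.cases ?_ (fun j => ?_) i
          · rfl
          · simp
        map_smul' := by
          intro r q
          refine Prod.ext rfl ?_
          funext i
          refine Fin.cases ?_ (fun j => ?_) i
          · rfl
          · simp }
    obtain ⟨δ3, h3⟩ := h2.map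
      (A' := A.prodMap (-(LinearMap.id : (Fin (N + 1) → ℝ) →ₗ[ℝ] (Fin (N + 1) → ℝ)))) φ (by
        intro q
        refine Prod.ext rfl ?_
        funext i
        refine Fin.cases ?_ (fun j => ?_) i
        · rfl
        · simp [φ])
    refine ⟨δ3, h3.mono ?_⟩
    rintro _ ⟨q, ⟨y, ⟨x, hx, a', ha', e1, e2⟩, a, ha, e3, e4⟩, rfl⟩
    refine ⟨x, hx, a * a', mul_nonneg ha ha', ?_, ?_⟩
    · show q.1.1 = _
      rw [e3, Prod.smul_fst, e1, smul_smul]
    · rw [Fin.sum_univ_succ]
      show a * a' + (|q.2| + ∑ i : Fin N, |q.1.2 i|) = 1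
      have e5 : ∑ i : Fin N, |q.1.2 i| = a * ∑ i : Fin N, |y.2 i| := by
        rw [e3, Finset.mul_sum]
        refine Finset.sum_congr rfl fun i _ => ?_
        rw [Prod.smul_snd, Pi.smul_apply, smul_eq_mul, abs_mul, abs_of_nonneg ha]
      rw [e5]
      linear_combination a * e2 + e4

end Pool.Agent.helper83.AD
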