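import Pool.Agent.helper83.AD.Sd

set_option autoImplicit false

/-!
# AD-4: mesh of the barycentric subdivision
-/

namespace Pool.Agent.helper83.AD

open Finset

variable {E : Type*} [NormedAddCommGroup E] [NormedSpace ℝ E]

/-- distance of the centroid to a vertex -/
theorem Mesh_aux1 {W : Type*} [DecidableEq W] (p : W → E) (δ : ℝ) (B : Finset W) (m : ℕ)
    (hB : B.card ≤ m) (hδ : ∀ v ∈ B, ∀ w ∈ B, ‖p v - p w‖ ≤ δ) (w : W) (hw : w ∈ B) :
    ‖p w - cen p B‖ ≤ (1 - 1 / (m : ℝ)) * δ := by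
  have hδ0 : 0 ≤ δ := by
    have := hδ w hw w hw
    rwa [sub_self, norm_zero] at this
  have hc : 0 < B.card := card_pos.2 ⟨w, hw⟩
  have hcr : (0 : ℝ) < B.card := by exact_mod_cast hc
  have hcm : (B.card : ℝ) ≤ m := by exact_mod_cast hB
  have h1 : p w - cen p B = (B.card : ℝ)⁻¹ • ∑ v ∈ B.erase w, (p w - p v) := by
    have h2 : ∑ v ∈ B.erase w, (p w - p v) = ∑ v ∈ B, (p w - p v) := by
      rw [← add_sum_erase B _ hw, sub_self, zero_add]
    rw [h2, sum_sub_distrib, sum_const, smul_sub, ← Nat.cast_smul_eq_nsmul ℝ, smul_smul,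
      inv_mul_cancel₀ hcr.ne', one_smul]
    rfl
  rw [h1, norm_smul, norm_inv, Real.norm_natCast]
  have h3 : ‖∑ v ∈ B.erase w, (p w - p v)‖ ≤ ((B.card : ℝ) - 1) * δ := by
    calc ‖∑ v ∈ B.erase w, (p w - p v)‖ ≤ ∑ v ∈ B.erase w, ‖p w - p v‖ := norm_sum_le _ _
      _ ≤ ∑ v ∈ B.erase w, δ := sum_le_sum fun v hv => hδ w hw v (mem_of_mem_erase hv)
      _ = ((B.erase w).card : ℝ) * δ := by rw [sum_const, nsmul_eq_mul]
      _ = ((B.card : ℝ) - 1) * δ := by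
        rw [card_erase_of_mem hw, Nat.cast_sub (by omega), Nat.cast_one]
  calc (B.card : ℝ)⁻¹ * ‖∑ v ∈ B.erase w, (p w - p v)‖ ≤ (B.card : ℝ)⁻¹ * (((B.card : ℝ) - 1) * δ) := by
        gcongr
    _ = (1 - 1 / (B.card : ℝ)) * δ := by
        field_simp
    _ ≤ (1 - 1 / (m : ℝ)) * δ := by
        gcongr

/-- the centroid of the image under an equivariant involution -/
theorem Mesh_aux2 {W : Type*} [DecidableEq W] (p : W → E) (A : E →ₗ[ℝ] E) (ι : W → W)
    (hι : Function.Involutive ι) (hp : ∀ w, p (ι w) = A (p w)) (S : Finset W) :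
    cen p (S.image ι) = A (cen p S) := by
  unfold cen
  rw [map_smul, map_sum, card_image_of_injective _ hι.injective, sum_image (hι.injective.injOn)]
  simp only [hp]

/-- PROOF: for `w ∈ B`: `cen p B - p w = |B|⁻¹ ∑_{v ∈ B} (p v - p w)` whose term `v = w` vanishes,
so the norm is at most `((|B| - 1)/|B|) δ ≤ (1 - 1/m) δ`; then average over `w ∈ A`. -/
theorem norm_cen_sub_le {W : Type*} [DecidableEq W] (p : W → E) (δ : ℝ) (A B : Finset W)
    (hA : A.Nonempty) (hAB : A ⊆ B) (m : ℕ) (hB : B.card ≤ m)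
    (hδ : ∀ v ∈ B, ∀ w ∈ B, ‖p v - p w‖ ≤ δ) :
    ‖cen p A - cen p B‖ ≤ (1 - 1 / (m : ℝ)) * δ := by
  have hc : 0 < A.card := card_pos.2 hA
  have hcr : (0 : ℝ) < A.card := by exact_mod_cast hc
  have h1 : cen p A - cen p B = (A.card : ℝ)⁻¹ • ∑ w ∈ A, (p w - cen p B) := by
    rw [sum_sub_distrib, sum_const, smul_sub, ← Nat.cast_smul_eq_nsmul ℝ, smul_smul,
      inv_mul_cancel₀ hcr.ne', one_smul]
    rfl
  rw [h1, norm_smul, norm_inv, Real.norm_natCast]
  calc (A.card : ℝ)⁻¹ * ‖∑ w ∈ A, (p w - cen p B)‖ ≤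
      (A.card : ℝ)⁻¹ * ∑ w ∈ A, ‖p w - cen p B‖ := by
        gcongr
        exact norm_sum_le _ _
    _ ≤ (A.card : ℝ)⁻¹ * ∑ w ∈ A, (1 - 1 / (m : ℝ)) * δ := by
        gcongr with w hw
        exact Mesh_aux1 p δ B m hB hδ w (hAB hw)
    _ = (1 - 1 / (m : ℝ)) * δ := by
        rw [sum_const, nsmul_eq_mul, ← mul_assoc, inv_mul_cancel₀ hcr.ne', one_mul]

/-- PROOF: `Finset.centerMass`-type fact: `cen p A` is a convex combination of `p v`, `v ∈ A`. -/
theorem cen_mem_convexHull {W : Type*} [DecidableEq W] (p : W → E) (A σ : Finset W)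
    (hA : A.Nonempty) (hAσ : A ⊆ σ) : cen p A ∈ convexHull ℝ (p '' (σ : Set W)) := by
  have h1 : cen p A = A.centerMass (fun _ => (1 : ℝ)) p := by
    unfold cen centerMass
    simp
  rw [h1]
  apply centerMass_mem_convexHull
  · intro _ _
    exact zero_le_one
  · simp [hA]
  · intro i hi
    exact ⟨i, hAσ hi, rfl⟩

/-- One barycentric subdivision.
PROOF: use the vertex set `Finset W`, the involution `A ↦ A.image ι`, the chains `sd (c i)`
(`sd_isBU`) and the placement `cen p`. If `sd (c i) Φ ≠ 0` there is `σ` with `c i σ ≠ 0` and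
`sdOne σ Φ ≠ 0`; `sdOne_supp` gives that the members of `Φ` are nonempty subsets of `σ`, pairwise
comparable, so the hull condition follows from `cen_mem_convexHull` (`convexHull_min`), the
mesh condition from `norm_cen_sub_le` with `m = n + 1` (`|B| ≤ |σ| = i + 1 ≤ n + 1`; use
`norm_sub_rev` for the two orders), and `cen p (A.image ι) = A (cen p A)` holds for every finset
by linearity. -/
theorem BUData.refine {A : E →ₗ[ℝ] E} {n : ℕ} {S : Set E} {δ : ℝ} (h : BUData A n S δ) :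
    BUData A n S ((1 - 1 / ((n : ℝ) + 1)) * δ) := by
  obtain ⟨W, hW1, hW2, ι, c, p, hι, hBU, hpA, hS, hδ⟩ := h
  have key : ∀ i, i ≤ n → ∀ Φ, sd (c i) Φ ≠ 0 → ∃ σ, c i σ ≠ 0 ∧ Φ.card = σ.card ∧
      (∀ A ∈ Φ, A ⊆ σ ∧ A.Nonempty) ∧ (∀ A ∈ Φ, ∀ B ∈ Φ, A ⊆ B ∨ B ⊆ A) := by
    intro i _ Φ hΦ
    unfold sd at hΦ
    obtain ⟨σ, _, hσ⟩ := exists_ne_zero_of_sum_ne_zero hΦ
    exact ⟨σ, left_ne_zero_of_mul hσ, sdOne_supp σ Φ (right_ne_zero_of_mul hσ)⟩
  refine ⟨Finset W, inferInstance, inferInstance, fun T => T.image ι, fun i => sd (c i), cen p,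
    ?_, sd_isBU ι hι n c hBU, Mesh_aux2 p A ι hι hpA, ?_, ?_⟩
  · intro T
    change (T.image ι).image ι = T
    rw [image_image, hι.comp_self, image_id]
  · intro i hi Φ hΦ
    obtain ⟨σ, hσ, _, h2, _⟩ := key i hi Φ hΦ
    refine Set.Subset.trans (convexHull_min ?_ (convex_convexHull ℝ _)) (hS i hi σ hσ)
    rintro _ ⟨T, hT, rfl⟩
    exact cen_mem_convexHull p T σ (h2 T hT).2 (h2 T hT).1
  · intro i hi Φ hΦ T hT T' hT'
    obtain ⟨σ, hσ, _, h2, h3⟩ := key i hi Φ hΦ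
    have hcard : σ.card ≤ n + 1 := by
      rw [hBU.card_eq i σ hσ]
      omega
    have hm : ((n + 1 : ℕ) : ℝ) = (n : ℝ) + 1 := by push_cast; ring
    rw [← hm]
    rcases h3 T hT T' hT' with h4 | h4
    · exact norm_cen_sub_le p δ T T' (h2 T hT).2 h4 (n + 1)
        ((card_le_card (h2 T' hT').1).trans hcard)
        (fun v hv w hw => hδ i hi σ hσ v ((h2 T' hT').1 hv) w ((h2 T' hT').1 hw))
    · rw [norm_sub_rev]
      exact norm_cen_sub_le p δ T' T (h2 T' hT').2 h4 (n + 1)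
        ((card_le_card (h2 T hT).1).trans hcard)
        (fun v hv w hw => hδ i hi σ hσ v ((h2 T hT).1 hv) w ((h2 T hT).1 hw))

/-- Arbitrarily fine mesh. PROOF: iterate `BUData.refine`; `(1 - 1/(n+1))^k δ → 0`; `BUData` is
monotone in `δ`. -/
theorem BUData.fine {A : E →ₗ[ℝ] E} {n : ℕ} {S : Set E} {δ : ℝ} (h : BUData A n S δ)
    (ε : ℝ) (hε : 0 < ε) : BUData A n S ε := by
  have h1 : ∀ k : ℕ, BUData A n S ((1 - 1 / ((n : ℝ) + 1)) ^ k * δ) := by
    intro k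
    induction k with
    | zero => simpa using h
    | succ k ih =>
      have h2 := ih.refine
      rwa [← mul_assoc, ← pow_succ'] at h2
  have hn : (0 : ℝ) < (n : ℝ) + 1 := by positivity
  have hr0 : 0 ≤ 1 - 1 / ((n : ℝ) + 1) := by
    have : 1 / ((n : ℝ) + 1) ≤ 1 := by
      rw [div_le_one hn]
      have : (0 : ℝ) ≤ n := Nat.cast_nonneg n
      linarith
    linarith
  have hr1 : 1 - 1 / ((n : ℝ) + 1) < 1 := by
    have : 0 < 1 / ((n : ℝ) + 1) := by positivity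
    linarith
  have h3 := (tendsto_pow_atTop_nhds_zero_of_lt_one hr0 hr1).mul_const δ
  rw [zero_mul] at h3
  obtain ⟨k, hk⟩ := (h3.eventually (gt_mem_nhds hε)).exists
  obtain ⟨W, hW1, hW2, ι, c, p, hι, hBU, hpA, hS, hδ⟩ := h1 k
  exact ⟨W, hW1, hW2, ι, c, p, hι, hBU, hpA, hS,
    fun i hi σ hσ v hv w hw => (hδ i hi σ hσ v hv w hw).trans hk.le⟩

end Pool.Agent.helper83.AD
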