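import Pool.Agent.helper83.AD.Fan
import Pool.Agent.helper83.AD.Mesh

set_option autoImplicit false

/-!
# AD-5: topological Borsuk-Ulam theorem for Borsuk-Ulam data
-/

namespace Pool.Agent.helper83.AD

open Finset

variable {E : Type*} [NormedAddCommGroup E] [NormedSpace ℝ E]

/-- Shrink `S` to a compact set: the union of the (finitely many, compact) hulls of the simplices
of the sequence. PROOF: `Set.Finite.isCompact_convexHull`, finite unions
(`isCompact_iUnion`, or `Set.Finite.isCompact_biUnion` over `i ≤ n` and the finite type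
`Finset W`). -/
theorem BUData.compact {A : E →ₗ[ℝ] E} {n : ℕ} {S : Set E} {δ : ℝ} (h : BUData A n S δ) :
    ∃ S' ⊆ S, IsCompact S' ∧ BUData A n S' δ := by
  classical
  obtain ⟨W, i1, i2, ι, c, p, h1, h2, h3, h4, h5⟩ := h
  let T : Set (Fin (n + 1) × Finset W) := {x | c x.1 x.2 ≠ 0}
  refine ⟨⋃ x ∈ T, convexHull ℝ (p '' (x.2 : Set W)), ?_, ?_, ?_⟩
  · refine Set.iUnion₂_subset fun x hx => ?_
    exact h4 x.1 (Nat.lt_succ_iff.1 x.1.2) x.2 hx
  · refine (Set.toFinite T).isCompact_biUnion fun x _ => ?_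
    exact (x.2.finite_toSet.image p).isCompact_convexHull (𝕜 := ℝ)
  · refine ⟨W, i1, i2, ι, c, p, h1, h2, h3, fun i hi σ hσ => ?_, h5⟩
    exact Set.subset_biUnion_of_mem (u := fun x : Fin (n + 1) × Finset W =>
      convexHull ℝ (p '' (x.2 : Set W))) (show (⟨i, Nat.lt_succ_iff.2 hi⟩, σ) ∈ T from hσ)

/-- an index of maximal modulus, invariant under `g ↦ - g` -/
theorem BUTop_index {m : ℕ} (hm : 0 < m) :
    ∃ J : (Fin m → ℝ) → Fin m, (∀ g : Fin m → ℝ, ‖g‖ ≤ |g (J g)|) ∧
      ∀ g : Fin m → ℝ, J (-g) = J g := by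
  classical
  have : Nonempty (Fin m) := ⟨⟨0, hm⟩⟩
  have hex : ∀ h : Fin m → ℝ, ∃ i, ∀ j, h j ≤ h i := fun h => Finite.exists_max h
  choose J0 hJ0 using hex
  refine ⟨fun g => J0 (fun i => |g i|), ?_, ?_⟩
  · intro g
    rw [pi_norm_le_iff_of_nonneg (abs_nonneg _)]
    intro i
    rw [Real.norm_eq_abs]
    exact hJ0 (fun i => |g i|) i
  · intro g
    simp only [Pi.neg_apply, abs_neg]

/-- decoding of the keys -/
theorem BUTop_key {N a b r t : ℕ} (h : a * N + r ≤ b * N + t) (ht : t < N) :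
    a ≤ b := by
  by_contra hcon
  have h1 : b + 1 ≤ a := by omega
  have h2 : (b + 1) * N ≤ a * N := Nat.mul_le_mul_right N h1
  have h3 : (b + 1) * N = b * N + N := by ring
  omega

/-- the next element has position one larger -/
theorem BUTop_next {W : Type*} [DecidableEq W] (κ : W → ℕ) (σ : Finset W) (hκ : Set.InjOn κ σ)
    {v w : W} (hv : v ∈ σ) (hw : w ∈ σ) (hvw : κ v < κ w) :
    ∃ u ∈ σ, κ v < κ u ∧ κ u ≤ κ w ∧ posn κ σ u = posn κ σ v + 1 := by
  obtain ⟨u, hu, hmin⟩ := Finset.exists_min_image (σ.filter fun x => κ v < κ x) κ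
    ⟨w, Finset.mem_filter.2 ⟨hw, hvw⟩⟩
  rw [Finset.mem_filter] at hu
  refine ⟨u, hu.1, hu.2, hmin w (Finset.mem_filter.2 ⟨hw, hvw⟩), ?_⟩
  unfold posn
  have h1 : σ.filter (fun x => κ x < κ u) = insert v (σ.filter fun x => κ x < κ v) := by
    ext x
    simp only [Finset.mem_filter, Finset.mem_insert]
    constructor
    · rintro ⟨hx, hxu⟩
      rcases lt_trichotomy (κ x) (κ v) with h | h | h
      · exact Or.inr ⟨hx, h⟩
      · exact Or.inl (hκ hx hv h)
      · exact absurd (hmin x (Finset.mem_filter.2 ⟨hx, h⟩)) (not_le.2 hxu)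
    · rintro (rfl | ⟨hx, hxv⟩)
      · exact ⟨hv, hu.2⟩
      · exact ⟨hx, hxv.trans hu.2⟩
  rw [h1, Finset.card_insert_of_notMem]
  simp

theorem BUTop_compact {A : E →ₗ[ℝ] E} {n : ℕ} {S : Set E} {δ : ℝ} (h : BUData A n S δ)
    (hS : IsCompact S) {m : ℕ} (hm : m ≤ n) (f : E → (Fin m → ℝ)) (hf : ContinuousOn f S)
    (hodd : ∀ x ∈ S, f (A x) = - f x) (hno : ∀ x ∈ S, f x ≠ 0) : False := by
  classical
  -- `S` is not empty
  have hne : S.Nonempty := by
    obtain ⟨W, i1, i2, ι, c, p, h1, h2, h3, h4, h5⟩ := h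
    have ha := h2.aug
    have hb : bd (c 0) ∅ ≠ 0 := by rw [ha]; decide
    obtain ⟨v, -, hv⟩ := Finset.exists_ne_zero_of_sum_ne_zero hb
    refine ⟨p v, h4 0 (Nat.zero_le n) _ hv (subset_convexHull ℝ _ ⟨v, ?_, rfl⟩)⟩
    simp
  have hm0 : 0 < m := by
    rcases Nat.eq_zero_or_pos m with h0 | h0
    · subst h0
      obtain ⟨x, hx⟩ := hne
      exact (hno x hx (Subsingleton.elim _ _)).elim
    · exact h0
  -- lower bound of the norm
  obtain ⟨μ, hμ0, hμ⟩ : ∃ μ : ℝ, 0 < μ ∧ ∀ x ∈ S, μ ≤ ‖f x‖ := by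
    obtain ⟨x0, hx0, hmin⟩ := hS.exists_isMinOn hne hf.norm
    exact ⟨‖f x0‖, norm_pos_iff.2 (hno x0 hx0), fun x hx => hmin hx⟩
  obtain ⟨η0, hη0, hη⟩ := Metric.uniformContinuousOn_iff.1
    (hS.uniformContinuousOn_of_continuous hf) μ hμ0
  obtain ⟨W, i1, i2, ι, c, p, hι, hBU, hpA, hS', hmesh⟩ := h.fine (η0 / 2) (by positivity)
  obtain ⟨J, hJ, hJneg⟩ := BUTop_index hm0
  let j : W → Fin m := fun w => J (f (p w))
  let s : W → ZMod 2 := fun w => if 0 < f (p w) (j w) then 0 else 1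
  let N : ℕ := Fintype.card W
  let e : W ≃ Fin N := Fintype.equivFin W
  let r : W → ℕ := fun w => min (e w : ℕ) (e (ι w) : ℕ)
  let κ : W → ℕ := fun w => (j w : ℕ) * N + r w
  have hr : ∀ w, r w < N := fun w => lt_of_le_of_lt (min_le_left _ _) (e w).2
  have hmem : ∀ i, i ≤ n → ∀ σ, c i σ ≠ 0 → ∀ w ∈ σ, p w ∈ S := fun i hi σ hσ w hw =>
    hS' i hi σ hσ (subset_convexHull ℝ _ ⟨w, hw, rfl⟩)
  have hbig : ∀ w, p w ∈ S → μ ≤ |f (p w) (j w)| := fun w hw => (hμ _ hw).trans (hJ _)
  have hneg : ∀ w, p w ∈ S → f (p (ι w)) = - f (p w) := fun w hw => by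
    rw [hpA, hodd _ hw]
  have hjι : ∀ w, p w ∈ S → j (ι w) = j w := by
    intro w hw
    show J (f (p (ι w))) = J (f (p w))
    rw [hneg w hw, hJneg]
  have hsι : ∀ w, p w ∈ S → s (ι w) = s w + 1 := by
    intro w hw
    show (if 0 < f (p (ι w)) (j (ι w)) then (0 : ZMod 2) else 1)
      = (if 0 < f (p w) (j w) then (0 : ZMod 2) else 1) + 1
    rw [hjι w hw, hneg w hw, Pi.neg_apply]
    have h1 := hbig w hw
    have h2 : f (p w) (j w) ≠ 0 := by
      intro h0
      rw [h0, abs_zero] at h1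
      linarith
    rcases lt_or_gt_of_ne h2 with h3 | h3
    · rw [if_pos (by linarith), if_neg (by linarith)]
      decide
    · rw [if_neg (by linarith), if_pos h3]
      decide
  have hκι : ∀ w, p w ∈ S → κ (ι w) = κ w := by
    intro w hw
    show (j (ι w) : ℕ) * N + min (e (ι w) : ℕ) (e (ι (ι w)) : ℕ) = (j w : ℕ) * N + _
    rw [hjι w hw, hι w, min_comm]
  -- equal index implies equal sign inside a simplex
  have hsame : ∀ i, i ≤ n → ∀ σ, c i σ ≠ 0 → ∀ v ∈ σ, ∀ w ∈ σ, j v = j w → s v = s w := by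
    intro i hi σ hσ v hv w hw hj
    have hvS := hmem i hi σ hσ v hv
    have hwS := hmem i hi σ hσ w hw
    have h1 : dist (p v) (p w) < η0 := by
      rw [dist_eq_norm]
      have := hmesh i hi σ hσ v hv w hw
      linarith
    have h2 := hη _ hvS _ hwS h1
    rw [dist_eq_norm] at h2
    have h3 : |f (p v) (j w) - f (p w) (j w)| < μ := by
      refine lt_of_le_of_lt ?_ h2
      exact norm_le_pi_norm (f (p v) - f (p w)) (j w)
    have h4 := hbig v hvS
    have h5 := hbig w hwS
    rw [hj] at h4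
    show (if 0 < f (p v) (j v) then (0 : ZMod 2) else 1) = if 0 < f (p w) (j w) then 0 else 1
    rw [hj]
    rw [abs_lt] at h3
    by_cases h6 : 0 < f (p v) (j w)
    · by_cases h7 : 0 < f (p w) (j w)
      · rw [if_pos h6, if_pos h7]
      · rw [abs_of_pos h6] at h4
        rw [abs_of_nonpos (not_lt.1 h7)] at h5
        linarith
    · by_cases h7 : 0 < f (p w) (j w)
      · rw [abs_of_nonpos (not_lt.1 h6)] at h4
        rw [abs_of_pos h7] at h5
        linarith
      · rw [if_neg h6, if_neg h7]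
  have hinj : ∀ i, i ≤ n → ∀ σ, c i σ ≠ 0 → Set.InjOn κ σ := by
    intro i hi σ hσ v hv w hw hκ
    have hv' : v ∈ σ := hv
    have hw' : w ∈ σ := hw
    have hvS := hmem i hi σ hσ v hv'
    have hwS := hmem i hi σ hσ w hw'
    have hκ' : (j v : ℕ) * N + r v = (j w : ℕ) * N + r w := hκ
    have h1 := BUTop_key hκ'.le (hr w)
    have h2 := BUTop_key hκ'.ge (hr v)
    have h3 : (j v : ℕ) = j w := le_antisymm h1 h2
    have h4 : r v = r w := by
      rw [h3] at hκ'
      omega
    have hj : j v = j w := Fin.ext h3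
    have h5 : v = w ∨ v = ι w := by
      have h4' : min (e v : ℕ) (e (ι v) : ℕ) = min (e w : ℕ) (e (ι w) : ℕ) := h4
      have hc1 : min (e v : ℕ) (e (ι v) : ℕ) = (e v : ℕ) ∨
          min (e v : ℕ) (e (ι v) : ℕ) = (e (ι v) : ℕ) := min_choice _ _
      have hc2 : min (e w : ℕ) (e (ι w) : ℕ) = (e w : ℕ) ∨
          min (e w : ℕ) (e (ι w) : ℕ) = (e (ι w) : ℕ) := min_choice _ _
      rcases hc1 with h6 | h6 <;> rcases hc2 with h7 | h7
      · rw [h6, h7] at h4'
        exact Or.inl (e.injective (Fin.ext h4'))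
      · rw [h6, h7] at h4'
        exact Or.inr (e.injective (Fin.ext h4'))
      · rw [h6, h7] at h4'
        have h8 : ι v = w := e.injective (Fin.ext h4')
        right
        rw [← h8, hι v]
      · rw [h6, h7] at h4'
        exact Or.inl (hι.injective (e.injective (Fin.ext h4')))
    rcases h5 with h5 | h5
    · exact h5
    · exfalso
      have h6 := hsame i hi σ hσ v hv' w hw' hj
      rw [h5, hsι w hwS] at h6
      have h7 : (1 : ZMod 2) = 0 := by
        have := congrArg (fun x => x - s w) h6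
        simpa using this
      exact absurd h7 (by decide)
  have hfan := fan_count ι hι n c hBU κ s (fun i hi σ hσ v hv => hκι v (hmem i hi σ hσ v hv))
    (fun i hi σ hσ v hv => hsι v (hmem i hi σ hσ v hv)) hinj
  have hfan' : ∑ σ, c n σ * (altP κ s σ + altN κ s σ) ≠ 0 := by rw [hfan]; decide
  obtain ⟨σ, -, hσ⟩ := Finset.exists_ne_zero_of_sum_ne_zero hfan'
  have hcσ : c n σ ≠ 0 := left_ne_zero_of_mul hσ
  have halt : altP κ s σ + altN κ s σ ≠ 0 := right_ne_zero_of_mul hσ
  have hκσ := hinj n le_rfl σ hcσ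
  -- there is a constant `t` with `s v + posn v = t` on `σ`
  have hcst : ∃ t : ZMod 2, ∀ v ∈ σ, s v + (posn κ σ v : ZMod 2) = t := by
    have hz : ∀ x : ZMod 2, 1 + x ≠ 0 → x = 0 := by decide
    have ho : ∀ x : ZMod 2, x ≠ 0 → x = 1 := by decide
    by_cases hP : altP κ s σ = 0
    · rw [hP, zero_add] at halt
      unfold altN at halt
      rw [Finset.prod_ne_zero_iff] at halt
      exact ⟨1, fun v hv => ho _ (halt v hv)⟩
    · unfold altP at hP
      rw [← Ne, Finset.prod_ne_zero_iff] at hP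
      refine ⟨0, fun v hv => hz _ ?_⟩
      rw [← add_assoc]
      exact hP v hv
  obtain ⟨t, ht⟩ := hcst
  have hstep : ∀ v ∈ σ, ∀ w ∈ σ, κ v < κ w → j v ≠ j w := by
    intro v hv w hw hvw hj
    obtain ⟨u, hu, h1, h2, h3⟩ := BUTop_next κ σ hκσ hv hw hvw
    have h4 := BUTop_key (show (j v : ℕ) * N + r v ≤ (j u : ℕ) * N + r u from h1.le) (hr u)
    have h5 := BUTop_key (show (j u : ℕ) * N + r u ≤ (j w : ℕ) * N + r w from h2) (hr w)
    have h6 : j v = j u := by
      apply Fin.ext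
      rw [← hj] at h5
      exact le_antisymm h4 h5
    have h7 := hsame n le_rfl σ hcσ v hv u hu h6
    have h8 := ht v hv
    have h9 := ht u hu
    rw [h3, ← h7] at h9
    rw [← h8] at h9
    push_cast at h9
    have h10 : (1 : ZMod 2) = 0 := by linear_combination h9
    exact absurd h10 (by decide)
  have hjinj : Set.InjOn j σ := by
    intro v hv w hw hj
    by_contra hvw
    rcases lt_trichotomy (κ v) (κ w) with h1 | h1 | h1
    · exact hstep v hv w hw h1 hj
    · exact hvw (hκσ hv hw h1)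
    · exact hstep w hw v hv h1 hj.symm
  have hcard : σ.card ≤ m := by
    rw [← Finset.card_image_of_injOn hjinj]
    calc (σ.image j).card ≤ Fintype.card (Fin m) := Finset.card_le_univ _
      _ = m := Fintype.card_fin m
  have := hBU.card_eq n σ hcσ
  omega

/-- Borsuk-Ulam.
PROOF. Suppose `f` has no zero on `S`; by `BUData.compact` we may take `S` compact (`f` is still
continuous, odd, without zero on the smaller set; keep the oddness hypothesis, which only speaks
of `x ∈ S`). `S` is nonempty (`aug` gives `v` with `c 0 {v} ≠ 0`, so `p v ∈ S`), so if `m = 0` the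
value `f (p v) = 0` is a contradiction; let `m > 0`. There is `μ > 0` with `‖f x‖ ≥ μ` on `S`
(sup norm), and by uniform continuity on the compact `S` there is `η > 0` with
`‖f x - f y‖ < μ` for `x, y ∈ S`, `‖x - y‖ ≤ η`. Take BU data with mesh `η` (`BUData.fine`).
For `w : W` let `j w : Fin m` be the least index with `|f (p w) j| = ‖f (p w)‖` (it exists), and
let the sign bit `s w : ZMod 2` be `0` if `f (p w) (j w) > 0` and `1` otherwise. Let
`N = Fintype.card W`, `e : W ≃ Fin N` and `κ w = (j w) * N + min (e w) (e (ι w))`. If `w ∈ σ`,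
`c i σ ≠ 0`, then `p w ∈ S`, `f (p (ι w)) = f (A (p w)) = - f (p w) ≠ 0`, so `j (ι w) = j w`,
`s (ι w) = s w + 1`, `κ (ι w) = κ w`. If `v, w ∈ σ` and `j v = j w` then `s v = s w`: otherwise
`|f (p v) (j v) - f (p w) (j v)| ≥ 2 μ`, against the choice of `η`. So `v, w ∈ σ`, `κ v = κ w`
force `j v = j w` and `w ∈ {v, ι v}`, and `w = ι v ≠ v` is excluded by the signs: `κ` is injective
on `σ`. By `fan_count` there is `σ` with `c n σ ≠ 0` and `altP κ s σ ≠ 0` or `altN κ s σ ≠ 0`: the
signs of `σ` alternate in the order of `κ`. Two elements of `σ` which are consecutive for `κ` have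
different signs, hence different `j`; as `κ u < κ v` implies `j u ≤ j v`, the function `j` is
strictly increasing along the order of `κ`, hence injective on `σ`, and `σ.card = n + 1 > m`:
contradiction. (To formalise the last step: if `j v = j w`, `κ v < κ w`, take the element
`u ∈ σ` with `posn κ σ u = posn κ σ v + 1`; then `κ v < κ u ≤ κ w`, so `j u = j v`, but the factors
of `altP`/`altN` at `u` and `v` force `s u ≠ s v`. Or argue with the element `u` of
`σ.filter (κ v < κ ·)` of least `κ`.) -/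
theorem BUData.exists_zero {A : E →ₗ[ℝ] E} {n : ℕ} {S : Set E} {δ : ℝ} (h : BUData A n S δ)
    {m : ℕ} (hm : m ≤ n) (f : E → (Fin m → ℝ)) (hf : ContinuousOn f S)
    (hodd : ∀ x ∈ S, f (A x) = - f x) : ∃ x ∈ S, f x = 0 := by
  by_contra hcon
  push Not at hcon
  obtain ⟨S', hS'S, hS'c, h'⟩ := h.compact
  exact BUTop_compact h' hS'c hm f (hf.mono hS'S) (fun x hx => hodd x (hS'S hx))
    (fun x hx => hcon x (hS'S hx))

end Pool.Agent.helper83.AD
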