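import Mathlib

set_option autoImplicit false

/-!
# Project AD (MP_b5ea8f): definitions

Mod 2 chains on the finite subsets of a finite vertex set, boundary, cones, alternating
indicators, Borsuk-Ulam sequences and their geometric carriers.
-/

namespace Pool.Agent.helper83.AD

open Finset

section Chains

variable {W : Type*}

/-- Mod 2 boundary of a chain `c`; chains are functions on finite vertex sets (the empty set is
the simplex of dimension `-1`). -/
def bd [Fintype W] [DecidableEq W] (c : Finset W → ZMod 2) (τ : Finset W) : ZMod 2 :=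
  ∑ v ∈ τᶜ, c (insert v τ)

/-- The cone with apex `b` over the chain `x` (used when `x` vanishes on all sets containing
`b`). -/
def cone [DecidableEq W] (b : W) (x : Finset W → ZMod 2) (σ : Finset W) : ZMod 2 :=
  if b ∈ σ then x (σ.erase b) else 0

/-- Position of `v` in `σ` for the order given by the key `κ`. -/
def posn (κ : W → ℕ) (σ : Finset W) (v : W) : ℕ := (σ.filter (fun w => κ w < κ v)).card

/-- Indicator (mod 2) of: the sign bits of `σ`, listed in the order of `κ`, are `0,1,0,1,...`. -/
def altP (κ : W → ℕ) (s : W → ZMod 2) (σ : Finset W) : ZMod 2 :=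
  ∏ v ∈ σ, (1 + s v + (posn κ σ v : ZMod 2))

/-- Indicator (mod 2) of: the sign bits of `σ`, listed in the order of `κ`, are `1,0,1,0,...`. -/
def altN (κ : W → ℕ) (s : W → ZMod 2) (σ : Finset W) : ZMod 2 :=
  ∏ v ∈ σ, (s v + (posn κ σ v : ZMod 2))

/-- A Borsuk-Ulam sequence of length `n` for the involution `ι`: chains `c 0, ..., c n`, `c i` of
dimension `i`, with `∂ c (i+1) = c i + ι c i` and `c 0` with an odd number of points. -/
structure IsBU [Fintype W] [DecidableEq W] (ι : W → W) (n : ℕ)
    (c : ℕ → Finset W → ZMod 2) : Prop where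
  card_eq : ∀ i σ, c i σ ≠ 0 → σ.card = i + 1
  bd_succ : ∀ i, i < n → ∀ τ, bd (c (i + 1)) τ = c i τ + c i (τ.image ι)
  aug : bd (c 0) ∅ = 1

end Chains

section Geometry

variable {E : Type*} [NormedAddCommGroup E] [NormedSpace ℝ E]

/-- `BUData A n S δ`: there is a Borsuk-Ulam sequence of length `n` on a finite vertex set mapped
to `E`, the involution covering the linear map `A`, all simplices of the sequence spanned inside
`S`, with edges of length at most `δ`. -/
def BUData (A : E →ₗ[ℝ] E) (n : ℕ) (S : Set E) (δ : ℝ) : Prop :=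
  ∃ (W : Type) (_ : Fintype W) (_ : DecidableEq W) (ι : W → W)
    (c : ℕ → Finset W → ZMod 2) (p : W → E),
    Function.Involutive ι ∧ IsBU ι n c ∧ (∀ w, p (ι w) = A (p w)) ∧
    (∀ i, i ≤ n → ∀ σ, c i σ ≠ 0 → convexHull ℝ (p '' (σ : Set W)) ⊆ S) ∧
    (∀ i, i ≤ n → ∀ σ, c i σ ≠ 0 → ∀ v ∈ σ, ∀ w ∈ σ, ‖p v - p w‖ ≤ δ)

/-- Centroid of the finite set `A` of vertices placed by `p`. -/
noncomputable def cen {W : Type*} (p : W → E) (A : Finset W) : E :=
  ((A.card : ℝ)⁻¹) • ∑ v ∈ A, p v

end Geometry

end Pool.Agent.helper83.AD
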