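import Pool.Agent.helper83.AD.Defs

set_option autoImplicit false

/-!
# AD-1: Fan's parity identity and the parity count along a Borsuk-Ulam sequence
-/

namespace Pool.Agent.helper83.AD

open Finset

variable {W : Type*} [Fintype W] [DecidableEq W]

/-- Duality between boundary and restriction to facets.
PROOF: both sides are the sum of `c σ * φ (σ.erase v)` over pairs `v ∈ σ`; reindex
`(τ, v ∉ τ) ↔ (σ = insert v τ, v ∈ σ)` (`Finset.sum_sigma'`, `Finset.sum_bij'`). -/
theorem sum_bd_mul (c φ : Finset W → ZMod 2) :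
    ∑ τ, bd c τ * φ τ = ∑ σ, c σ * ∑ v ∈ σ, φ (σ.erase v) := by
  simp only [bd, Finset.sum_mul, Finset.mul_sum]
  rw [Finset.sum_sigma', Finset.sum_sigma']
  refine Finset.sum_bij' (fun x _ => ⟨insert x.2 x.1, x.2⟩) (fun x _ => ⟨x.1.erase x.2, x.2⟩)
    ?_ ?_ ?_ ?_ ?_
  · rintro ⟨τ, v⟩ h
    simp
  · rintro ⟨σ, v⟩ h
    simp
  · rintro ⟨τ, v⟩ h
    simp only [Finset.mem_sigma, Finset.mem_univ, true_and, Finset.mem_compl] at h
    simp [Finset.erase_insert h]
  · rintro ⟨σ, v⟩ h
    simp only [Finset.mem_sigma, Finset.mem_univ, true_and] at h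
    simp [Finset.insert_erase h]
  · rintro ⟨τ, v⟩ h
    simp only [Finset.mem_sigma, Finset.mem_univ, true_and, Finset.mem_compl] at h
    simp [Finset.erase_insert h]

theorem Fan_tele (b : ℕ → ZMod 2) (S : Finset ℕ) :
    ∑ u ∈ S, (∏ v ∈ S with v < u, b v) * (∏ v ∈ S with u < v, (1 + b v))
      = ∏ v ∈ S, b v + ∏ v ∈ S, (1 + b v) := by
  have h := Finset.prod_add_ordered S (fun v => 1 + b v) (fun _ => (1 : ZMod 2))
  have e : ∀ v, (1 + b v) + 1 = b v := by
    intro v
    have : (1 : ZMod 2) + 1 = 0 := by decide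
    calc (1 + b v) + 1 = b v + (1 + 1) := by ring
      _ = b v := by rw [this, add_zero]
  simp only [e, one_mul] at h
  rw [h]
  have : ∀ a : ZMod 2, a + a = 0 := by decide
  rw [add_comm (∏ v ∈ S, (1 + b v)) _, add_assoc, this, add_zero]

omit [Fintype W] in
theorem Fan_posn_erase_lt (κ : W → ℕ) (σ : Finset W) (u v : W) (hv : κ v < κ u) :
    posn κ (σ.erase u) v = posn κ σ v := by
  unfold posn
  congr 1
  ext w
  simp only [Finset.mem_filter, Finset.mem_erase]
  constructor
  · rintro ⟨⟨_, h1⟩, h2⟩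
    exact ⟨h1, h2⟩
  · rintro ⟨h1, h2⟩
    refine ⟨⟨?_, h1⟩, h2⟩
    rintro rfl
    omega

omit [Fintype W] in
theorem Fan_posn_erase_gt (κ : W → ℕ) (σ : Finset W) (u v : W) (hu : u ∈ σ) (hv : κ u < κ v) :
    posn κ (σ.erase u) v + 1 = posn κ σ v := by
  unfold posn
  have e : (σ.erase u).filter (fun w => κ w < κ v) = (σ.filter (fun w => κ w < κ v)).erase u := by
    ext w
    simp only [Finset.mem_filter, Finset.mem_erase]
    tauto
  rw [e]
  exact Finset.card_erase_add_one (by simp [hu, hv])

/-- Fan's identity.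
PROOF: put on `σ` the linear order by `κ` (injective on `σ`). For `u ∈ σ` the position of
`v ∈ σ.erase u` in `σ.erase u` is `posn κ σ v` if `κ v < κ u`, and `posn κ σ v - 1` if
`κ u < κ v`. So with `b v = 1 + s v + posn κ σ v` (in `ZMod 2`) one gets
`altP κ s (σ.erase u) = (∏ v ∈ σ with κ v < κ u, b v) * ∏ v ∈ σ with κ u < κ v, (1 + b v)`,
and the claim is `∑ u, (∏_{v < u} b v) (∏_{v > u} (1 + b v)) = ∏ b v + ∏ (1 + b v)`: this is
`Finset.prod_add_ordered` with `f = 1 + b`, `g = 1`, `f + g = b` (characteristic 2).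
If the linear order is inconvenient: transport along `κ` to a statement about the image of `σ`
in `ℕ`, i.e. about functions `b : ℕ → ZMod 2` and the finset `σ.image κ`. -/
theorem fan_identity (κ : W → ℕ) (s : W → ZMod 2) (σ : Finset W) (hκ : Set.InjOn κ σ) :
    ∑ v ∈ σ, altP κ s (σ.erase v) = altP κ s σ + altN κ s σ := by
  classical
  have two : ∀ a : ZMod 2, a + a = 0 := by decide
  let b : ℕ → ZMod 2 := fun k => ∏ v ∈ σ with κ v = k, (1 + s v + (posn κ σ v : ZMod 2))
  have hb : ∀ v ∈ σ, b (κ v) = 1 + s v + (posn κ σ v : ZMod 2) := by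
    intro v hv
    have : σ.filter (fun w => κ w = κ v) = {v} := by
      ext w
      simp only [Finset.mem_filter, Finset.mem_singleton]
      constructor
      · rintro ⟨h1, h2⟩
        exact hκ h1 hv h2
      · rintro rfl
        exact ⟨hv, rfl⟩
    simp only [b, this, Finset.prod_singleton]
  have hb1 : ∀ v ∈ σ, 1 + b (κ v) = s v + (posn κ σ v : ZMod 2) := by
    intro v hv
    rw [hb v hv, ← add_assoc, ← add_assoc, two, zero_add]
  have hP : altP κ s σ = ∏ k ∈ σ.image κ, b k := by
    rw [Finset.prod_image hκ]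
    exact Finset.prod_congr rfl fun v hv => (hb v hv).symm
  have hN : altN κ s σ = ∏ k ∈ σ.image κ, (1 + b k) := by
    rw [Finset.prod_image hκ]
    exact Finset.prod_congr rfl fun v hv => (hb1 v hv).symm
  rw [hP, hN, ← Fan_tele, Finset.sum_image hκ]
  refine Finset.sum_congr rfl fun u hu => ?_
  unfold altP
  rw [← Finset.prod_filter_mul_prod_filter_not (σ.erase u) (fun v => κ v < κ u)]
  have hfl : ∀ p : ℕ → Prop, [DecidablePred p] →
      (σ.image κ).filter p = (σ.filter (fun v => p (κ v))).image κ := by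
    intro p _
    rw [Finset.filter_image]
  congr 1
  · rw [hfl (fun k => k < κ u), Finset.prod_image (hκ.mono (fun x hx => (Finset.mem_filter.1 (Finset.mem_coe.1 hx)).1))]
    have : (σ.erase u).filter (fun v => κ v < κ u) = σ.filter (fun v => κ v < κ u) := by
      ext w
      simp only [Finset.mem_filter, Finset.mem_erase]
      constructor
      · rintro ⟨⟨_, h1⟩, h2⟩
        exact ⟨h1, h2⟩
      · rintro ⟨h1, h2⟩
        refine ⟨⟨?_, h1⟩, h2⟩
        rintro rfl
        omega
    rw [this]
    refine Finset.prod_congr rfl fun v hv => ?_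
    rw [Finset.mem_filter] at hv
    rw [hb v hv.1, Fan_posn_erase_lt κ σ u v hv.2]
  · rw [hfl (fun k => κ u < k), Finset.prod_image (hκ.mono (fun x hx => (Finset.mem_filter.1 (Finset.mem_coe.1 hx)).1))]
    have : (σ.erase u).filter (fun v => ¬ κ v < κ u) = σ.filter (fun v => κ u < κ v) := by
      ext w
      simp only [Finset.mem_filter, Finset.mem_erase]
      constructor
      · rintro ⟨⟨h0, h1⟩, h2⟩
        refine ⟨h1, lt_of_le_of_ne (not_lt.1 h2) ?_⟩
        intro h3
        exact h0 (hκ h1 hu h3.symm)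
      · rintro ⟨h1, h2⟩
        refine ⟨⟨?_, h1⟩, by omega⟩
        rintro rfl
        omega
    rw [this]
    refine Finset.prod_congr rfl fun v hv => ?_
    rw [Finset.mem_filter] at hv
    rw [hb1 v hv.1, ← Fan_posn_erase_gt κ σ u v hu hv.2]
    push_cast
    ring

omit [Fintype W] in
theorem Fan_posn_image (ι : W → W) (hι : Function.Involutive ι) (κ : W → ℕ)
    (σ : Finset W) (hκ : ∀ v ∈ σ, κ (ι v) = κ v) (v : W) (hv : v ∈ σ) :
    posn κ (σ.image ι) (ι v) = posn κ σ v := by
  unfold posn
  rw [Finset.filter_image, Finset.card_image_of_injective _ hι.injective]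
  congr 1
  ext w
  simp only [Finset.mem_filter]
  constructor
  · rintro ⟨h1, h2⟩
    rw [hκ w h1, hκ v hv] at h2
    exact ⟨h1, h2⟩
  · rintro ⟨h1, h2⟩
    rw [hκ w h1, hκ v hv]
    exact ⟨h1, h2⟩

/-- Equivariance of the alternating indicators.
PROOF: `posn κ (σ.image ι) (ι v) = posn κ σ v` for `v ∈ σ` (`ι` is injective and preserves `κ` on
`σ`), `s (ι v) = s v + 1`, and `1 + (s v + 1) = s v` in `ZMod 2`; use `Finset.prod_image`. -/
theorem altP_image (ι : W → W) (hι : Function.Involutive ι) (κ : W → ℕ) (s : W → ZMod 2)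
    (σ : Finset W) (hκ : ∀ v ∈ σ, κ (ι v) = κ v) (hs : ∀ v ∈ σ, s (ι v) = s v + 1) :
    altP κ s (σ.image ι) = altN κ s σ ∧ altN κ s (σ.image ι) = altP κ s σ := by
  have two : (1 : ZMod 2) + 1 = 0 := by decide
  constructor
  · unfold altP altN
    rw [Finset.prod_image (fun a _ b _ h => hι.injective h)]
    refine Finset.prod_congr rfl fun v hv => ?_
    rw [Fan_posn_image ι hι κ σ hκ v hv, hs v hv]
    calc 1 + (s v + 1) + (posn κ σ v : ZMod 2) = s v + (posn κ σ v : ZMod 2) + (1 + 1) := by ring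
      _ = _ := by rw [two, add_zero]
  · unfold altP altN
    rw [Finset.prod_image (fun a _ b _ h => hι.injective h)]
    refine Finset.prod_congr rfl fun v hv => ?_
    rw [Fan_posn_image ι hι κ σ hκ v hv, hs v hv]
    ring

/-- Parity count along a Borsuk-Ulam sequence.
PROOF: let `N i = ∑ σ, c i σ * (altP κ s σ + altN κ s σ)`. `N 0 = ∑ σ, c 0 σ * 1 = bd (c 0) ∅ = 1`
(for `σ = {v}` one has `altP + altN = (1 + s v) + s v = 1`, and `c 0` is supported on singletons).
For `i < n`: by `fan_identity` (on the support of `c (i+1)`) and `sum_bd_mul`,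
`N (i+1) = ∑ σ, c (i+1) σ * ∑ v ∈ σ, altP κ s (σ.erase v) = ∑ τ, bd (c (i+1)) τ * altP κ s τ
= ∑ τ, c i τ * altP κ s τ + ∑ τ, c i (τ.image ι) * altP κ s τ`, and the last sum is, by the
substitution `τ = σ.image ι` (an involution of `Finset W`) and `altP_image`,
`∑ σ, c i σ * altN κ s σ`. So `N (i+1) = N i`. -/
theorem fan_count (ι : W → W) (hι : Function.Involutive ι) (n : ℕ)
    (c : ℕ → Finset W → ZMod 2) (h : IsBU ι n c) (κ : W → ℕ) (s : W → ZMod 2)
    (hκ : ∀ i, i ≤ n → ∀ σ, c i σ ≠ 0 → ∀ v ∈ σ, κ (ι v) = κ v)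
    (hs : ∀ i, i ≤ n → ∀ σ, c i σ ≠ 0 → ∀ v ∈ σ, s (ι v) = s v + 1)
    (hinj : ∀ i, i ≤ n → ∀ σ, c i σ ≠ 0 → Set.InjOn κ σ) :
    ∑ σ, c n σ * (altP κ s σ + altN κ s σ) = 1 := by
  classical
  have two : ∀ a : ZMod 2, a + a = 0 := by decide
  have key : ∀ i, i ≤ n → ∑ σ, c i σ * (altP κ s σ + altN κ s σ) = 1 := by
    intro i
    induction i with
    | zero =>
      intro _
      have h0 : ∀ σ, c 0 σ * (altP κ s σ + altN κ s σ) = c 0 σ * ∑ v ∈ σ, (if σ.erase v = ∅ then 1 else 0) := by
        intro σ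
        by_cases hc : c 0 σ = 0
        · rw [hc, zero_mul, zero_mul]
        · have hcard := h.card_eq 0 σ hc
          rw [zero_add, Finset.card_eq_one] at hcard
          obtain ⟨a, rfl⟩ := hcard
          have hp : posn κ {a} a = 0 := by
            unfold posn
            rw [Finset.card_eq_zero, Finset.filter_eq_empty_iff]
            intro x hx
            rw [Finset.mem_singleton] at hx
            rw [hx]; exact lt_irrefl _
          congr 1
          simp only [altP, altN, Finset.prod_singleton, Finset.sum_singleton, hp, Nat.cast_zero,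
            add_zero]
          rw [add_assoc, two, add_zero]
          simp
      rw [Finset.sum_congr rfl fun σ _ => h0 σ]
      rw [← sum_bd_mul (c 0) (fun τ => if τ = ∅ then 1 else 0)]
      simp [h.aug]
    | succ i ih =>
      intro hi
      have hi' : i < n := hi
      have h0 : ∀ σ, c (i+1) σ * (altP κ s σ + altN κ s σ)
          = c (i+1) σ * ∑ v ∈ σ, altP κ s (σ.erase v) := by
        intro σ
        by_cases hc : c (i+1) σ = 0
        · rw [hc, zero_mul, zero_mul]
        · rw [fan_identity κ s σ (hinj _ hi σ hc)]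
      rw [Finset.sum_congr rfl fun σ _ => h0 σ, ← sum_bd_mul]
      rw [Finset.sum_congr rfl fun τ _ => by rw [h.bd_succ i hi' τ, add_mul]]
      rw [Finset.sum_add_distrib]
      rw [← ih hi'.le]
      simp only [mul_add, Finset.sum_add_distrib]
      congr 1
      have himg : Function.Involutive (fun τ : Finset W => τ.image ι) := by
        intro τ
        simp only [Finset.image_image]
        have : ι ∘ ι = id := by ext x; exact hι x
        rw [this, Finset.image_id]
      refine Finset.sum_bij' (fun τ _ => τ.image ι) (fun τ _ => τ.image ι) ?_ ?_ ?_ ?_ ?_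
      · intro τ _; exact Finset.mem_univ _
      · intro τ _; exact Finset.mem_univ _
      · intro τ _; exact himg τ
      · intro τ _; exact himg τ
      · intro τ _
        by_cases hc : c i (τ.image ι) = 0
        · rw [hc, zero_mul, zero_mul]
        · have h3 := (altP_image ι hι κ s (τ.image ι) (hκ i hi'.le _ hc) (hs i hi'.le _ hc)).1
          have h4 : (τ.image ι).image ι = τ := himg τ
          rw [h4] at h3
          rw [h3]
  exact key n le_rfl

end Pool.Agent.helper83.AD
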